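import Pool.Agent.Helper68.EP.St5

set_option autoImplicit false

open MeasureTheory Set Filter Topology
open scoped ENNReal RealInnerProductSpace

namespace Pool.Agent.Helper34.EP

open Pool.Agent.Helper68.EP
open Pool.Agent.Helper68.LM (Pl BB Bd Av HL ft fm DQ)
open Pool.Agent.Helper20.RG
open Pool.Agent.Helper20.RL (RQ Rich BM Fml Hit)

theorem gf_BM (f : Pl → ℝ) (hf : BB f) (m : ℤ) : BM (Gf f m) := by
  obtain ⟨hm, K, hK1, hK2⟩ := hf
  refine ⟨?_, ?_⟩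
  · have h1 : MeasurableSet {x | (2 : ℝ) ^ m ≤ f x} := measurableSet_le measurable_const hm
    have h2 : MeasurableSet {x | f x < (2 : ℝ) ^ (m + 1)} := measurableSet_lt hm measurable_const
    exact h1.inter h2
  · refine (Metric.isBounded_closedBall (x := (0 : Pl)) (r := K)).subset ?_
    rintro x ⟨hx1, -⟩
    rw [Metric.mem_closedBall, dist_zero_right]
    by_contra hcon
    push Not at hcon
    have h0 := hK2 x hcon
    rw [h0] at hx1
    have : (0 : ℝ) < (2 : ℝ) ^ m := by positivity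
    linarith

theorem gf_disj (f : Pl → ℝ) : Pairwise (Function.onFun Disjoint (fun m : ℤ => Gf f m)) := by
  intro m m' hmm
  refine Set.disjoint_left.mpr ?_
  rintro x ⟨h1, h2⟩ ⟨h3, h4⟩
  have key : ∀ a b : ℤ, (2 : ℝ) ^ a ≤ f x → f x < (2 : ℝ) ^ (b + 1) → a ≤ b := by
    intro a b ha hb
    have h5 : (2 : ℝ) ^ a < (2 : ℝ) ^ (b + 1) := lt_of_le_of_lt ha hb
    have h6 := (zpow_lt_zpow_iff_right₀ (by norm_num : (1 : ℝ) < 2)).mp h5
    lia
  exact hmm (le_antisymm (key m m' h1 h4) (key m' m h3 h2))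

theorem sum_gf (p : ℝ) (hp : 0 ≤ p) (f : Pl → ℝ) (hf : BB f) :
    ∑' m : ℤ, ENNReal.ofReal ((2 : ℝ) ^ (p * m)) * volume (Gf f m) ≤
      ∫⁻ x, ENNReal.ofReal (f x) ^ p := by
  calc ∑' m : ℤ, ENNReal.ofReal ((2 : ℝ) ^ (p * m)) * volume (Gf f m)
      ≤ ∑' m : ℤ, ∫⁻ x in Gf f m, ENNReal.ofReal (f x) ^ p := by
        refine ENNReal.tsum_le_tsum fun m => ?_
        rw [← setLIntegral_const]
        refine setLIntegral_mono' (gf_BM f hf m).1 ?_
        rintro x ⟨hx1, -⟩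
        have h2 : (0 : ℝ) < (2 : ℝ) ^ m := by positivity
        have h3 : (2 : ℝ) ^ (p * m) = ((2 : ℝ) ^ m) ^ p := by
          rw [mul_comm, Real.rpow_mul (by norm_num), Real.rpow_intCast]
        rw [h3, ← ENNReal.ofReal_rpow_of_pos h2]
        exact ENNReal.rpow_le_rpow (ENNReal.ofReal_le_ofReal hx1) hp
    _ = ∫⁻ x in ⋃ m : ℤ, Gf f m, ENNReal.ofReal (f x) ^ p :=
        (lintegral_iUnion (fun m => (gf_BM f hf m).1) (gf_disj f) _).symm
    _ ≤ ∫⁻ x, ENNReal.ofReal (f x) ^ p := setLIntegral_le_lintegral _ _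

/-- unweighted sums -/
noncomputable def AM (P : Par) (Δ : Dat) (u : ℕ) (θ M : ℝ) (E : Set Pl) : ℝ≥0∞ :=
  ∑ j ∈ Finset.range (2 ^ u), ∑' k : ℤ, volume (VM P Δ u j k θ M E)

noncomputable def AV (P : Par) (Δ : Dat) (u : ℕ) (θ : ℝ) (E : Set Pl) : ℝ≥0∞ :=
  ∑ j ∈ Finset.range (2 ^ u), ∑' k : ℤ, volume (Vc P Δ u j k θ E)

theorem hXS (hEZ2 : StEZ2) (hEZ3 : StEZ3) (hXT : StXT) : StXS := by
  intro P
  obtain ⟨C₂, u₂, hC₂, h2⟩ := hEZ2 P
  obtain ⟨C₃, u₃, hC₃, h3⟩ := hEZ3 P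
  obtain ⟨uT, huT, hT⟩ := hXT P
  refine ⟨140 * (C₂ + C₃), max uT (max u₂ u₃), by linarith, le_trans huT (le_max_left _ _), ?_⟩
  intro Δ ct U₀ U₁ θ n M L f hSy hU₀ hθ hθ1 hn hMθ hM hf
  have hUT : uT ≤ U₀ := le_trans (le_max_left _ _) hU₀
  have hU2 : u₂ ≤ U₀ := le_trans (le_trans (le_max_left _ _) (le_max_right _ _)) hU₀
  have hU3 : u₃ ≤ U₀ := le_trans (le_trans (le_max_right _ _) (le_max_right _ _)) hU₀
  have hg : 0 ≤ P.g := by
    unfold Par.g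
    have := P.hs
    linarith [div_nonneg (by linarith : (0 : ℝ) ≤ P.s - 1) (by norm_num : (0 : ℝ) ≤ 64)]
  have hp0 : 0 ≤ P.p := by linarith [P.hs, P.hsp]
  have hθ0 : 0 < θ := lt_of_lt_of_le (by positivity) hθ
  have hθ2 : (2 : ℝ) ^ (-(P.g * U₀)) ≤ θ := by
    refine le_trans ?_ hθ
    refine Real.rpow_le_rpow_of_exponent_le (by norm_num) ?_
    have : 0 ≤ P.g * U₀ := mul_nonneg hg (Nat.cast_nonneg _)
    linarith
  -- step 1, 2
  have step1 : ∀ l : ℤ, ∑' k : ℤ,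
      volume {x | n ≤ ((Ht P Δ ct U₀ U₁ k θ (fun u => Gf f (l + (u : ℤ))) x).ncard : ℝ)} ≤
      ENNReal.ofReal (140 / n) * ∑ u ∈ Finset.Icc U₀ U₁, (AM P Δ u θ M (Gf f (l + (u : ℤ))) +
        ENNReal.ofReal ((2 : ℝ) ^ (-(P.g * u))) * AV P Δ u θ (Gf f (l + (u : ℤ)))) := by
    intro l
    calc ∑' k : ℤ,
      volume {x | n ≤ ((Ht P Δ ct U₀ U₁ k θ (fun u => Gf f (l + (u : ℤ))) x).ncard : ℝ)}
        ≤ ∑' k : ℤ, ENNReal.ofReal (140 / n) * ∑ u ∈ Finset.Icc U₀ U₁,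
          ∑ j ∈ Finset.range (2 ^ u), (volume (VM P Δ u j k θ M (Gf f (l + (u : ℤ)))) +
          ENNReal.ofReal ((2 : ℝ) ^ (-(P.g * u))) * volume (Vc P Δ u j k θ (Gf f (l + (u : ℤ))))) :=
          ENNReal.tsum_le_tsum fun k => hT Δ ct U₀ U₁ k θ n M L (fun u => Gf f (l + (u : ℤ))) hSy hUT
            hθ hθ1 hn hM (fun u => gf_BM f hf _)
      _ = _ := by
          rw [ENNReal.tsum_mul_left]
          congr 1
          rw [Summable.tsum_finsetSum (fun _ _ => ENNReal.summable)]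
          refine Finset.sum_congr rfl fun u _ => ?_
          rw [Summable.tsum_finsetSum (fun _ _ => ENNReal.summable)]
          unfold AM AV
          rw [Finset.mul_sum, ← Finset.sum_add_distrib]
          refine Finset.sum_congr rfl fun j _ => ?_
          rw [ENNReal.tsum_add, ENNReal.tsum_mul_left]
  -- step 3
  have step3 : ∀ u : ℕ, ∑' l : ℤ, ENNReal.ofReal ((2 : ℝ) ^ (P.p * l)) *
      (AM P Δ u θ M (Gf f (l + (u : ℤ))) +
        ENNReal.ofReal ((2 : ℝ) ^ (-(P.g * u))) * AV P Δ u θ (Gf f (l + (u : ℤ)))) =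
      ∑' m : ℤ, ENNReal.ofReal ((2 : ℝ) ^ (P.p * m)) * (SMu P Δ u θ M (Gf f m) +
        ENNReal.ofReal ((2 : ℝ) ^ (-(P.g * u))) * SVu P Δ u θ (Gf f m)) := by
    intro u
    rw [← (Equiv.addRight (u : ℤ)).tsum_eq (fun m : ℤ => ENNReal.ofReal ((2 : ℝ) ^ (P.p * m)) *
      (SMu P Δ u θ M (Gf f m) + ENNReal.ofReal ((2 : ℝ) ^ (-(P.g * u))) * SVu P Δ u θ (Gf f m)))]
    refine tsum_congr fun l => ?_
    simp only [Equiv.coe_addRight]
    have h4 : ENNReal.ofReal ((2 : ℝ) ^ (P.p * l)) =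
        ENNReal.ofReal ((2 : ℝ) ^ (P.p * ((l + (u : ℤ) : ℤ) : ℝ))) * wt P u := by
      unfold wt
      rw [← ENNReal.ofReal_mul (by positivity), ← Real.rpow_add (by norm_num)]
      congr 2
      push_cast
      ring
    have h5 : SMu P Δ u θ M (Gf f (l + (u : ℤ))) = wt P u * AM P Δ u θ M (Gf f (l + (u : ℤ))) := rfl
    have h6 : SVu P Δ u θ (Gf f (l + (u : ℤ))) = wt P u * AV P Δ u θ (Gf f (l + (u : ℤ))) := rfl
    rw [h4, h5, h6]
    ring
  set κ : ℝ := C₃ / θ * (max 1 M) ^ (1 - P.p) + (2 : ℝ) ^ (-(P.g * U₀)) * (C₂ / θ) with hκ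
  have hM1 : (0 : ℝ) < max 1 M := lt_of_lt_of_le one_pos (le_max_left _ _)
  have hMp : (0 : ℝ) < (max 1 M) ^ (1 - P.p) := Real.rpow_pos_of_pos hM1 _
  have step4 : ∀ m : ℤ, ∑ u ∈ Finset.Icc U₀ U₁, (SMu P Δ u θ M (Gf f m) +
      ENNReal.ofReal ((2 : ℝ) ^ (-(P.g * u))) * SVu P Δ u θ (Gf f m)) ≤
      ENNReal.ofReal κ * volume (Gf f m) := by
    intro m
    rw [Finset.sum_add_distrib, hκ, ENNReal.ofReal_add (by positivity) (by positivity), add_mul]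
    refine add_le_add (h3 Δ U₀ U₁ θ M (Gf f m) hSy hU3 hθ hθ1 hMθ (gf_BM f hf m)) ?_
    rw [ENNReal.ofReal_mul (by positivity), mul_assoc]
    calc ∑ u ∈ Finset.Icc U₀ U₁, ENNReal.ofReal ((2 : ℝ) ^ (-(P.g * u))) * SVu P Δ u θ (Gf f m)
        ≤ ∑ u ∈ Finset.Icc U₀ U₁, ENNReal.ofReal ((2 : ℝ) ^ (-(P.g * U₀))) * SVu P Δ u θ (Gf f m) := by
          refine Finset.sum_le_sum fun u hu => ?_
          refine mul_le_mul_left ?_ _
          refine ENNReal.ofReal_le_ofReal (Real.rpow_le_rpow_of_exponent_le (by norm_num) ?_)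
          have h7 : (U₀ : ℝ) ≤ u := by exact_mod_cast (Finset.mem_Icc.mp hu).1
          have := mul_le_mul_of_nonneg_left h7 hg
          linarith
      _ = ENNReal.ofReal ((2 : ℝ) ^ (-(P.g * U₀))) * ∑ u ∈ Finset.Icc U₀ U₁, SVu P Δ u θ (Gf f m) := by
          rw [Finset.mul_sum]
      _ ≤ _ := by
          gcongr
          exact h2 Δ U₀ U₁ θ (Gf f m) hSy hU2 hθ2 hθ1 (gf_BM f hf m)
  calc ∑' l : ℤ, ENNReal.ofReal ((2 : ℝ) ^ (P.p * l)) * ∑' k : ℤ,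
      volume {x | n ≤ ((Ht P Δ ct U₀ U₁ k θ (fun u => Gf f (l + (u : ℤ))) x).ncard : ℝ)}
      ≤ ∑' l : ℤ, ENNReal.ofReal ((2 : ℝ) ^ (P.p * l)) * (ENNReal.ofReal (140 / n) *
        ∑ u ∈ Finset.Icc U₀ U₁, (AM P Δ u θ M (Gf f (l + (u : ℤ))) +
        ENNReal.ofReal ((2 : ℝ) ^ (-(P.g * u))) * AV P Δ u θ (Gf f (l + (u : ℤ))))) :=
        ENNReal.tsum_le_tsum fun l => by
          gcongr
          exact step1 l
    _ = ENNReal.ofReal (140 / n) * ∑' l : ℤ, ∑ u ∈ Finset.Icc U₀ U₁,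
        ENNReal.ofReal ((2 : ℝ) ^ (P.p * l)) * (AM P Δ u θ M (Gf f (l + (u : ℤ))) +
        ENNReal.ofReal ((2 : ℝ) ^ (-(P.g * u))) * AV P Δ u θ (Gf f (l + (u : ℤ)))) := by
        rw [← ENNReal.tsum_mul_left]
        refine tsum_congr fun l => ?_
        rw [← Finset.mul_sum]
        ring
    _ = ENNReal.ofReal (140 / n) * ∑' m : ℤ, ENNReal.ofReal ((2 : ℝ) ^ (P.p * m)) *
        ∑ u ∈ Finset.Icc U₀ U₁, (SMu P Δ u θ M (Gf f m) +
        ENNReal.ofReal ((2 : ℝ) ^ (-(P.g * u))) * SVu P Δ u θ (Gf f m)) := by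
        congr 1
        rw [Summable.tsum_finsetSum (fun _ _ => ENNReal.summable)]
        rw [Finset.sum_congr rfl (fun u _ => step3 u)]
        rw [← Summable.tsum_finsetSum (fun _ _ => ENNReal.summable)]
        refine tsum_congr fun m => ?_
        rw [Finset.mul_sum]
    _ ≤ ENNReal.ofReal (140 / n) * ∑' m : ℤ, ENNReal.ofReal κ *
        (ENNReal.ofReal ((2 : ℝ) ^ (P.p * m)) * volume (Gf f m)) := by
        refine mul_le_mul' le_rfl (ENNReal.tsum_le_tsum fun m => ?_)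
        calc ENNReal.ofReal ((2 : ℝ) ^ (P.p * m)) *
            ∑ u ∈ Finset.Icc U₀ U₁, (SMu P Δ u θ M (Gf f m) +
            ENNReal.ofReal ((2 : ℝ) ^ (-(P.g * u))) * SVu P Δ u θ (Gf f m))
            ≤ ENNReal.ofReal ((2 : ℝ) ^ (P.p * m)) * (ENNReal.ofReal κ * volume (Gf f m)) := by
              gcongr
              exact step4 m
          _ = _ := by ring
    _ = ENNReal.ofReal (140 / n) * ENNReal.ofReal κ * ∑' m : ℤ,
        ENNReal.ofReal ((2 : ℝ) ^ (P.p * m)) * volume (Gf f m) := by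
        rw [ENNReal.tsum_mul_left, mul_assoc]
    _ ≤ ENNReal.ofReal (140 / n) * ENNReal.ofReal κ * ∫⁻ x, ENNReal.ofReal (f x) ^ P.p := by
        gcongr
        exact sum_gf P.p hp0 f hf
    _ ≤ _ := by
        rw [← ENNReal.ofReal_mul (by positivity)]
        refine mul_le_mul' (ENNReal.ofReal_le_ofReal ?_) le_rfl
        have h8 : (0 : ℝ) < (2 : ℝ) ^ (-(P.g * U₀)) := by positivity
        have h9 : 140 / n * κ = 140 / (n * θ) * (C₃ * (max 1 M) ^ (1 - P.p) +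
            C₂ * (2 : ℝ) ^ (-(P.g * U₀))) := by
          rw [hκ]
          field_simp
        have h10 : 140 * (C₂ + C₃) / (n * θ) * ((max 1 M) ^ (1 - P.p) + (2 : ℝ) ^ (-(P.g * U₀))) =
            140 / (n * θ) * ((C₂ + C₃) * ((max 1 M) ^ (1 - P.p) + (2 : ℝ) ^ (-(P.g * U₀)))) := by
          ring
        rw [h9, h10]
        refine mul_le_mul_of_nonneg_left ?_ (by positivity)
        nlinarith [mul_nonneg (by linarith : (0 : ℝ) ≤ C₂) hMp.le, mul_nonneg (by linarith : (0 : ℝ) ≤ C₃) h8.le]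

end Pool.Agent.Helper34.EP
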